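import Mathlib
import Pool.Agent.TH813.Ell0

/-!
# Job 1795: elliptic functions on the curve
-/

set_option autoImplicit false

open Filter
open scoped Topology PeriodPair

noncomputable section

namespace Pool.Agent.TH55.EL

open H667R3 Pool.Agent.W245.EB Pool.Agent.TH813.Ell

/-! ### generalities -/

theorem cod_iff {p : ℂ → Prop} :
    (∀ᶠ z in codiscrete ℂ, p z) ↔ ∀ x, ∀ᶠ z in 𝓝[≠] x, p z := by
  rw [Filter.Eventually, mem_codiscrete]
  simp only [disjoint_principal_right, compl_compl]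
  rfl

theorem cod_deriv {f g : ℂ → ℂ} (h : f =ᶠ[codiscrete ℂ] g) :
    deriv f =ᶠ[codiscrete ℂ] deriv g :=
  cod_iff.2 fun x => EventuallyEq.nhdsNE_deriv (cod_iff.1 h x)

theorem zero_or {f : ℂ → ℂ} (hf : Meromorphic f) :
    f =ᶠ[codiscrete ℂ] (fun _ => 0) ∨ ∀ x, meromorphicOrderAt f x ≠ ⊤ := by
  by_cases h : ∃ x, meromorphicOrderAt f x ≠ ⊤
  · right
    obtain ⟨x, hx⟩ := h
    intro y
    exact MeromorphicOn.meromorphicOrderAt_ne_top_of_isPreconnected (U := Set.univ)
      (fun z _ => hf z) isPreconnected_univ (Set.mem_univ x) (Set.mem_univ y) hx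
  · left
    push Not at h
    exact cod_iff.2 fun x => meromorphicOrderAt_eq_top_iff.1 (h x)

theorem exists_of_cod {p : ℂ → Prop} (h : ∀ᶠ z in codiscrete ℂ, p z) :
    ∃ z, ∀ᶠ y in 𝓝 z, p y := by
  have h1 : {z | p z} ∈ codiscrete ℂ := h
  obtain ⟨z, hz⟩ := (cod_iff.1 h 0).exists
  exact ⟨z, (mem_codiscrete'.1 h1).1.mem_nhds hz⟩

variable {L : PeriodPair}

/-! ### the cubic has simple roots -/

theorem simple_roots (y : ℂ) (h : 4 * y ^ 3 - L.g₂ * y - L.g₃ = 0) : 12 * y ^ 2 - L.g₂ ≠ 0 := by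
  -- half periods
  have n1 : L.ω₁ / 2 ∉ L.lattice := L.ω₁_div_two_notMem_lattice
  have n2 : L.ω₂ / 2 ∉ L.lattice := L.ω₂_div_two_notMem_lattice
  have n3 : L.ω₁ / 2 + L.ω₂ / 2 ∉ L.lattice := half_add_half_notMem L
  have n4 : L.ω₁ / 2 - L.ω₂ / 2 ∉ L.lattice := half_sub_half_notMem L
  have m1 := L.ω₁_mem_lattice
  have m2 := L.ω₂_mem_lattice
  set a := ℘[L] (L.ω₁ / 2) with ha
  set b := ℘[L] (L.ω₂ / 2) with hb
  set c := ℘[L] (L.ω₁ / 2 + L.ω₂ / 2) with hc
  have root : ∀ w ∈ L.lattice, w / 2 ∉ L.lattice →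
      4 * ℘[L] (w / 2) ^ 3 - L.g₂ * ℘[L] (w / 2) - L.g₃ = 0 := by
    intro w hw hw2
    have h1 := L.derivWeierstrassP_sq (w / 2) hw2
    rw [wp'_half_eq_zero L hw] at h1
    rw [← h1]; ring
  have ra : 4 * a ^ 3 - L.g₂ * a - L.g₃ = 0 := root _ m1 n1
  have rb : 4 * b ^ 3 - L.g₂ * b - L.g₃ = 0 := root _ m2 n2
  have rc : 4 * c ^ 3 - L.g₂ * c - L.g₃ = 0 := by
    have h1 := root (L.ω₁ + L.ω₂) (add_mem m1 m2) (by rwa [add_div])
    rwa [add_div] at h1
  have hab : a ≠ b := by
    intro hh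
    rcases (wp_eq_iff L n1 n2).1 hh with h1 | h1
    · exact n3 h1
    · exact n4 h1
  have hac : a ≠ c := by
    intro hh
    rcases (wp_eq_iff L n1 n3).1 hh with h1 | h1
    · have h2 : L.ω₂ / 2 ∈ L.lattice := by
        have := sub_mem h1 m1
        convert this using 1
        ring
      exact n2 h2
    · have h2 : L.ω₂ / 2 ∈ L.lattice := by
        have := neg_mem h1
        convert this using 1
        ring
      exact n2 h2
  have hbc : b ≠ c := by
    intro hh
    rcases (wp_eq_iff L n2 n3).1 hh with h1 | h1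
    · have h2 : L.ω₁ / 2 ∈ L.lattice := by
        have := sub_mem h1 m2
        convert this using 1
        ring
      exact n1 h2
    · have h2 : L.ω₁ / 2 ∈ L.lattice := by
        have := neg_mem h1
        convert this using 1
        ring
      exact n1 h2
  have e1 : 4 * (a ^ 2 + a * b + b ^ 2) - L.g₂ = 0 := by
    have : (a - b) * (4 * (a ^ 2 + a * b + b ^ 2) - L.g₂) = 0 := by linear_combination ra - rb
    exact (mul_eq_zero.1 this).resolve_left (sub_ne_zero.2 hab)
  have e2 : 4 * (a ^ 2 + a * c + c ^ 2) - L.g₂ = 0 := by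
    have : (a - c) * (4 * (a ^ 2 + a * c + c ^ 2) - L.g₂) = 0 := by linear_combination ra - rc
    exact (mul_eq_zero.1 this).resolve_left (sub_ne_zero.2 hac)
  have e3 : a + b + c = 0 := by
    have : (b - c) * (a + b + c) = 0 := by linear_combination (e1 - e2) / 4
    exact (mul_eq_zero.1 this).resolve_left (sub_ne_zero.2 hbc)
  have hc' : c = -(a + b) := by linear_combination e3
  have hg2 : L.g₂ = 4 * (a ^ 2 + a * b + b ^ 2) := by linear_combination -e1
  have hg3 : L.g₃ = 4 * a ^ 3 - L.g₂ * a := by linear_combination -ra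
  have hf : (y - a) * ((y - b) * (y - c)) = 0 := by
    rw [hg3, hg2] at h
    rw [hc']
    linear_combination h / 4
  intro h0
  rw [hg2] at h0
  rcases mul_eq_zero.1 hf with h1 | h1
  · have hy : y = a := by linear_combination h1
    have : (a - b) * (a - c) = 0 := by
      rw [hy] at h0
      rw [hc']
      linear_combination h0 / 4
    rcases mul_eq_zero.1 this with h2 | h2
    · exact hab (sub_eq_zero.1 h2)
    · exact hac (sub_eq_zero.1 h2)
  rcases mul_eq_zero.1 h1 with h1 | h1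
  · have hy : y = b := by linear_combination h1
    have : (a - b) * (b - c) = 0 := by
      rw [hy] at h0
      rw [hc']
      linear_combination -h0 / 4
    rcases mul_eq_zero.1 this with h2 | h2
    · exact hab (sub_eq_zero.1 h2)
    · exact hbc (sub_eq_zero.1 h2)
  · have hy : y = c := by linear_combination h1
    have : (a - c) * (b - c) = 0 := by
      rw [hy, hc'] at h0
      rw [hc']
      linear_combination h0 / 4
    rcases mul_eq_zero.1 this with h2 | h2
    · exact hac (sub_eq_zero.1 h2)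
    · exact hbc (sub_eq_zero.1 h2)

/-! ### the order of the derivative -/

theorem ord_const_nonneg (c x : ℂ) : 0 ≤ meromorphicOrderAt (fun _ : ℂ => c) x :=
  (analyticAt_const (𝕜 := ℂ) (v := c) (x := x)).meromorphicOrderAt_nonneg

theorem ord_le {A B : ℂ → ℂ} {x : ℂ} (hA : MeromorphicAt A x) (hB : MeromorphicAt B x)
    (h : (fun z => B z ^ 2) =ᶠ[𝓝[≠] x] fun z => 4 * A z ^ 3 - L.g₂ * A z - L.g₃)
    (hBt : meromorphicOrderAt B x ≠ ⊤) :
    meromorphicOrderAt B x ≤ meromorphicOrderAt (deriv A) x := by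
  obtain ⟨b, hb⟩ := WithTop.ne_top_iff_exists.1 hBt
  have hB2 : meromorphicOrderAt (fun z => B z ^ 2) x = ((2 * b : ℤ) : WithTop ℤ) := by
    have e1 : (fun z => B z ^ 2) = B ^ 2 := rfl
    rw [e1, meromorphicOrderAt_pow hB, ← hb]
    norm_cast
  rcases lt_or_ge (meromorphicOrderAt A x) 0 with hneg | hnn
  · obtain ⟨a, ha⟩ := WithTop.ne_top_iff_exists.1 hneg.ne_top
    have ha0 : a < 0 := by rw [← ha] at hneg; exact_mod_cast hneg
    have h1 : meromorphicOrderAt (fun z => 4 * A z ^ 3) x = ((3 * a : ℤ) : WithTop ℤ) := by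
      have e1 : (fun z => 4 * A z ^ 3) = (fun _ => (4 : ℂ)) * A ^ 3 := rfl
      rw [e1, meromorphicOrderAt_mul_of_ne_zero analyticAt_const (by norm_num),
        meromorphicOrderAt_pow hA, ← ha]
      norm_cast
    have h2 : ((a : ℤ) : WithTop ℤ) ≤ meromorphicOrderAt (fun z => -(L.g₂ * A z) + -L.g₃) x := by
      have hm1 : MeromorphicAt (fun z => -(L.g₂ * A z)) x := by fun_prop
      have hm2 : MeromorphicAt (fun _ : ℂ => -L.g₃) x := by fun_prop
      have h3 := meromorphicOrderAt_add hm1 hm2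
      have h4 : ((a : ℤ) : WithTop ℤ) ≤ meromorphicOrderAt (fun z => -(L.g₂ * A z)) x := by
        have e1 : (fun z => -(L.g₂ * A z)) = (fun _ => -L.g₂) * A := by
          funext z; simp
        rw [e1, meromorphicOrderAt_mul (by fun_prop) hA, ha]
        exact le_add_of_nonneg_left (ord_const_nonneg _ _)
      have h5 : ((a : ℤ) : WithTop ℤ) ≤ meromorphicOrderAt (fun _ : ℂ => -L.g₃) x := by
        refine le_trans ?_ (ord_const_nonneg _ _)
        exact_mod_cast ha0.le
      exact (le_min h4 h5).trans h3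
    have h6 : meromorphicOrderAt ((fun z => 4 * A z ^ 3) + fun z => -(L.g₂ * A z) + -L.g₃) x =
        ((3 * a : ℤ) : WithTop ℤ) := by
      rw [meromorphicOrderAt_add_eq_left_of_lt (by fun_prop), h1]
      rw [h1]
      refine lt_of_lt_of_le ?_ h2
      exact_mod_cast (by linarith : 3 * a < a)
    have h7 : meromorphicOrderAt (fun z => B z ^ 2) x = ((3 * a : ℤ) : WithTop ℤ) := by
      rw [← h6]
      refine meromorphicOrderAt_congr ?_
      filter_upwards [h] with z hz
      rw [hz]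
      simp only [Pi.add_apply]
      ring
    rw [hB2] at h7
    have h8 : 2 * b = 3 * a := by exact_mod_cast h7
    have h9 : meromorphicOrderAt (deriv A) x = ((a - 1 : ℤ) : WithTop ℤ) :=
      meromorphicOrderAt_deriv_eq_sub_one (by exact_mod_cast ha0.ne) ha.symm
    rw [h9, ← hb]
    have : b ≤ a - 1 := by omega
    exact_mod_cast this
  · obtain ⟨g, hg, hAg⟩ := (hA.meromorphicOrderAt_nonneg_iff).1 hnn
    have hdA : meromorphicOrderAt (deriv A) x = meromorphicOrderAt (deriv g) x :=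
      meromorphicOrderAt_congr hAg.nhdsNE_deriv
    rw [hdA]
    have hBg : (fun z => B z ^ 2) =ᶠ[𝓝[≠] x] fun z => 4 * g z ^ 3 - L.g₂ * g z - L.g₃ := by
      filter_upwards [h, hAg] with z hz hz2
      rw [hz, hz2]
    have hPan : AnalyticAt ℂ (fun z => 4 * g z ^ 3 - L.g₂ * g z - L.g₃) x := by fun_prop
    have hb0 : 0 ≤ b := by
      have h1 : 0 ≤ meromorphicOrderAt (fun z => B z ^ 2) x := by
        rw [meromorphicOrderAt_congr hBg]
        exact hPan.meromorphicOrderAt_nonneg
      rw [hB2] at h1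
      have : 0 ≤ 2 * b := by exact_mod_cast h1
      omega
    rcases hb0.eq_or_lt with hb1 | hb1
    · rw [← hb, ← hb1]
      exact hg.deriv.meromorphicOrderAt_nonneg
    · have hBpos : 0 < meromorphicOrderAt (fun z => B z ^ 2) x := by
        rw [hB2]
        exact_mod_cast (by omega : 0 < 2 * b)
      have ht1 : Tendsto (fun z => B z ^ 2) (𝓝[≠] x) (𝓝 0) :=
        tendsto_zero_of_meromorphicOrderAt_pos hBpos
      have ht2 : Tendsto (fun z => 4 * g z ^ 3 - L.g₂ * g z - L.g₃) (𝓝[≠] x)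
          (𝓝 (4 * g x ^ 3 - L.g₂ * g x - L.g₃)) :=
        hPan.continuousAt.continuousWithinAt.tendsto
      have hroot : 4 * g x ^ 3 - L.g₂ * g x - L.g₃ = 0 :=
        tendsto_nhds_unique (ht2.congr' hBg.symm) ht1
      have hs := simple_roots _ hroot
      have hd1 : (fun z => 2 * B z * deriv B z) =ᶠ[𝓝[≠] x]
          fun z => (12 * g z ^ 2 - L.g₂) * deriv g z := by
        have h1 := EventuallyEq.nhdsNE_deriv hBg
        filter_upwards [h1, hB.eventually_analyticAt,
          hg.eventually_analyticAt.filter_mono nhdsWithin_le_nhds] with z hz hBz hgz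
        have h2 : deriv (fun z => B z ^ 2) z = 2 * B z * deriv B z := by
          have := (hBz.differentiableAt.hasDerivAt.fun_pow 2).deriv
          rw [this]
          push_cast
          ring
        have h3 : deriv (fun z => 4 * g z ^ 3 - L.g₂ * g z - L.g₃) z =
            (12 * g z ^ 2 - L.g₂) * deriv g z := by
          have hgd := hgz.differentiableAt.hasDerivAt
          have := ((((hgd.fun_pow 3).const_mul 4).fun_sub (hgd.const_mul L.g₂)).sub_const
            L.g₃).deriv
          rw [this]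
          push_cast
          ring
        rw [← h2, ← h3, hz]
      have ho1 : meromorphicOrderAt (fun z => 2 * B z * deriv B z) x =
          ((b + (b - 1) : ℤ) : WithTop ℤ) := by
        have e1 : (fun z => 2 * B z * deriv B z) = (fun _ => (2 : ℂ)) * (B * deriv B) := by
          funext z; simp [mul_assoc]
        rw [e1, meromorphicOrderAt_mul_of_ne_zero analyticAt_const (by norm_num),
          meromorphicOrderAt_mul hB hB.deriv,
          meromorphicOrderAt_deriv_eq_sub_one (n := b) (by exact_mod_cast hb1.ne') hb.symm, ← hb]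
        norm_cast
      have ho2 : meromorphicOrderAt (fun z => (12 * g z ^ 2 - L.g₂) * deriv g z) x =
          meromorphicOrderAt (deriv g) x :=
        meromorphicOrderAt_mul_of_ne_zero (g := fun z => 12 * g z ^ 2 - L.g₂) (by fun_prop) hs
      rw [← ho2, ← meromorphicOrderAt_congr hd1, ho1, ← hb]
      exact_mod_cast (by omega : b ≤ b + (b - 1))

/-! ### uniqueness for the differential equation -/

theorem analyticAt_wp {u : ℂ} (hu : u ∉ L.lattice) : AnalyticAt ℂ ℘[L] u :=
  (L.differentiableOn_weierstrassP.analyticOnNhd (isOpen_compl L)) u hu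

theorem analyticAt_wp' {u : ℂ} (hu : u ∉ L.lattice) : AnalyticAt ℂ ℘'[L] u := by
  have h1 := (analyticAt_wp hu).deriv
  have h2 : deriv ℘[L] =ᶠ[𝓝 u] ℘'[L] := by
    filter_upwards [(isOpen_compl L).mem_nhds hu] with x hx
    exact (hasDerivAt_weierstrassP L hx).deriv
  exact h1.congr h2

/-- a solution of `d' = q d` which vanishes at a point vanishes near the point -/
theorem lin_unique {d q : ℂ → ℂ} {x : ℂ} (hd : AnalyticAt ℂ d x) (hq : AnalyticAt ℂ q x)
    (h0 : d x = 0) (h : deriv d =ᶠ[𝓝 x] fun z => q z * d z) : ∀ᶠ z in 𝓝 x, d z = 0 := by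
  rw [← analyticOrderAt_eq_top]
  by_contra hne
  obtain ⟨n, hn⟩ := ENat.ne_top_iff_exists.1 hne
  have hn0 : n ≠ 0 := by
    rintro rfl
    have := (hd.analyticOrderAt_eq_zero).1 (by rw [← hn]; rfl)
    exact this h0
  obtain ⟨m, rfl⟩ := Nat.exists_eq_succ_of_ne_zero hn0
  have h1 : analyticOrderAt (deriv d) x = m :=
    analyticOrderAt_deriv_of_pos hd (by rw [← hn]; push_cast; rfl)
  rw [analyticOrderAt_congr h] at h1
  have h2 : analyticOrderAt (fun z => q z * d z) x = analyticOrderAt q x + analyticOrderAt d x :=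
    analyticOrderAt_mul hq hd
  rw [h2, ← hn] at h1
  have h3 : ((m + 1 : ℕ) : ℕ∞) ≤ (m : ℕ∞) := by
    calc ((m + 1 : ℕ) : ℕ∞) ≤ analyticOrderAt q x + ((m + 1 : ℕ) : ℕ∞) := le_add_self
      _ = _ := h1
  have h4 : m + 1 ≤ m := by exact_mod_cast h3
  omega

theorem local_eq {A B : ℂ → ℂ} {c z1 e : ℂ} (he : e ∉ L.lattice) (hA1 : ℘[L] e = A z1)
    (hB1 : ℘'[L] e = B z1) (hB0 : B z1 ≠ 0)
    (hS : ∀ᶠ z in 𝓝 z1, AnalyticAt ℂ A z ∧ AnalyticAt ℂ B z ∧
      B z ^ 2 = 4 * A z ^ 3 - L.g₂ * A z - L.g₃ ∧ deriv A z = c * B z) :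
    ∀ᶠ z in 𝓝 z1, A z = ℘[L] (e + c * (z - z1)) := by
  obtain ⟨hAan, hBan, -, -⟩ := hS.self_of_nhds
  have hφ1 : e + c * (z1 - z1) = e := by ring
  have hφc : Continuous fun z : ℂ => e + c * (z - z1) := by fun_prop
  have hφan : ∀ z, AnalyticAt ℂ (fun z : ℂ => e + c * (z - z1)) z := fun z => by fun_prop
  have hh : AnalyticAt ℂ (fun z => ℘[L] (e + c * (z - z1))) z1 :=
    AnalyticAt.comp (g := ℘[L]) (f := fun z : ℂ => e + c * (z - z1))
      (by rw [hφ1]; exact analyticAt_wp he) (hφan z1)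
  have hk : AnalyticAt ℂ (fun z => ℘'[L] (e + c * (z - z1))) z1 :=
    AnalyticAt.comp (g := ℘'[L]) (f := fun z : ℂ => e + c * (z - z1))
      (by rw [hφ1]; exact analyticAt_wp' he) (hφan z1)
  set d : ℂ → ℂ := fun z => A z - ℘[L] (e + c * (z - z1)) with hd
  set Q : ℂ → ℂ := fun z => 4 * (A z ^ 2 + A z * ℘[L] (e + c * (z - z1)) +
    ℘[L] (e + c * (z - z1)) ^ 2) - L.g₂ with hQ
  set R : ℂ → ℂ := fun z => B z + ℘'[L] (e + c * (z - z1)) with hR
  have hdan : AnalyticAt ℂ d z1 := hAan.sub hh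
  have hQan : AnalyticAt ℂ Q z1 := by
    rw [hQ]
    fun_prop
  have hRan : AnalyticAt ℂ R z1 := hBan.add hk
  have hR0 : R z1 ≠ 0 := by
    rw [hR]
    simp only [hφ1, hB1]
    rw [← two_mul]
    exact mul_ne_zero two_ne_zero hB0
  have hqan : AnalyticAt ℂ (fun z => c * Q z / R z) z1 :=
    (analyticAt_const.mul hQan).div hRan hR0
  have hd0 : d z1 = 0 := by
    show A z1 - ℘[L] (e + c * (z1 - z1)) = 0
    rw [hφ1, hA1, sub_self]
  have hder : deriv d =ᶠ[𝓝 z1] fun z => (c * Q z / R z) * d z := by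
    have hopen : ∀ᶠ z in 𝓝 z1, e + c * (z - z1) ∉ L.lattice := by
      have h0 : (L.lattice : Set ℂ)ᶜ ∈ 𝓝 (e + c * (z1 - z1)) := by
        rw [hφ1]
        exact (isOpen_compl L).mem_nhds he
      exact hφc.continuousAt.eventually_mem h0
    have hRne : ∀ᶠ z in 𝓝 z1, R z ≠ 0 := hRan.continuousAt.eventually_ne hR0
    filter_upwards [hS, hopen, hRne] with z ⟨hz1, hz2, hz3, hz4⟩ hz5 hz6
    have h1 : HasDerivAt (fun z => ℘[L] (e + c * (z - z1))) (℘'[L] (e + c * (z - z1)) * c) z := by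
      have h2 : HasDerivAt (fun z : ℂ => e + c * (z - z1)) c z := by
        have := (((hasDerivAt_id z).sub_const z1).const_mul c).const_add e
        simpa using this
      exact (hasDerivAt_weierstrassP L hz5).comp z h2
    have h3 : deriv d z = c * B z - ℘'[L] (e + c * (z - z1)) * c := by
      rw [← hz4]
      exact (hz1.differentiableAt.hasDerivAt.fun_sub h1).deriv
    have h4 := L.derivWeierstrassP_sq _ hz5
    rw [h3]
    rw [div_mul_eq_mul_div, eq_div_iff hz6]
    simp only [hR, hQ, hd]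
    linear_combination c * hz3 - c * h4
  filter_upwards [lin_unique hdan hqan hd0 hder] with z hz
  exact sub_eq_zero.1 hz

/-! ### the multiplier -/

theorem meromorphic_aff {e c z1 : ℂ} (hc : c ≠ 0) :
    Meromorphic (fun z => ℘[L] (e + c * (z - z1))) := by
  intro z
  have h2 : AnalyticAt ℂ (fun z : ℂ => e + c * (z - z1)) z := by fun_prop
  exact MeromorphicAt.comp_analyticAt (f := ℘[L]) (g := fun z : ℂ => e + c * (z - z1))
    (L.meromorphic_weierstrassP _) h2

theorem tendsto_aff {e c z1 z0 : ℂ} (hc : c ≠ 0) :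
    Tendsto (fun z : ℂ => e + c * (z - z1)) (𝓝[≠] z0) (𝓝[≠] (e + c * (z0 - z1))) := by
  refine tendsto_nhdsWithin_iff.2 ⟨?_, ?_⟩
  · have : Continuous fun z : ℂ => e + c * (z - z1) := by fun_prop
    exact this.continuousAt.tendsto.mono_left nhdsWithin_le_nhds
  · filter_upwards [self_mem_nhdsWithin] with z hz hz2
    apply hz
    have h1 : c * (z - z0) = 0 := by
      have h2 : e + c * (z - z1) = e + c * (z0 - z1) := hz2
      linear_combination h2
    rcases mul_eq_zero.1 h1 with h | h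
    · exact absurd h hc
    · exact sub_eq_zero.1 h

theorem mult_mem {A B : ℂ → ℂ} (hA : Ellip L A) (hB : Ellip L B)
    (h : (fun z => B z ^ 2) =ᶠ[codiscrete ℂ] fun z => 4 * A z ^ 3 - L.g₂ * A z - L.g₃)
    (hB0 : ∀ x, meromorphicOrderAt B x ≠ ⊤) {c : ℂ} (hc : c ≠ 0)
    (hAB : deriv A =ᶠ[codiscrete ℂ] fun z => c * B z) :
    ∀ w ∈ L.lattice, c * w ∈ L.lattice := by
  intro l hl
  by_contra hcl
  -- a good point
  have hgood : ∀ᶠ z in codiscrete ℂ, (AnalyticAt ℂ A z ∧ AnalyticAt ℂ B z ∧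
      B z ^ 2 = 4 * A z ^ 3 - L.g₂ * A z - L.g₃ ∧ deriv A z = c * B z) ∧ B z ≠ 0 := by
    refine cod_iff.2 fun x => ?_
    filter_upwards [(hA.1 x).eventually_analyticAt, (hB.1 x).eventually_analyticAt,
      cod_iff.1 h x, cod_iff.1 hAB x,
      (meromorphicOrderAt_ne_top_iff_eventually_ne_zero (hB.1 x)).1 (hB0 x)]
      with z h1 h2 h3 h4 h5
    exact ⟨⟨h1, h2, h3, h4⟩, h5⟩
  obtain ⟨z1, hz1⟩ := exists_of_cod hgood
  obtain ⟨⟨-, -, hrel, -⟩, hBz1⟩ := hz1.self_of_nhds
  obtain ⟨e, he, he1, he2⟩ : ∃ e, e ∉ L.lattice ∧ ℘[L] e = A z1 ∧ ℘'[L] e = B z1 := by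
    obtain ⟨e, he, he1⟩ := exists_wp_eq L (A z1)
    have h1 := L.derivWeierstrassP_sq e he
    rw [he1, ← hrel] at h1
    rcases sq_eq_sq_iff_eq_or_eq_neg.1 h1 with h2 | h2
    · exact ⟨e, he, he1, h2⟩
    · refine ⟨-e, fun hh => he (by simpa using neg_mem hh), ?_, ?_⟩
      · rw [L.weierstrassP_neg, he1]
      · rw [L.derivWeierstrassP_neg, h2, neg_neg]
  have hloc := local_eq he he1 he2 hBz1 (hz1.mono fun z hz => hz.1)
  -- identity theorem
  have hid : A =ᶠ[codiscrete ℂ] fun z => ℘[L] (e + c * (z - z1)) := by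
    have hm : Meromorphic (fun z => A z - ℘[L] (e + c * (z - z1))) := fun x =>
      (hA.1 x).fun_sub (meromorphic_aff hc x)
    rcases zero_or hm with h1 | h1
    · filter_upwards [h1] with z hz
      exact sub_eq_zero.1 hz
    · exfalso
      apply h1 z1
      rw [meromorphicOrderAt_eq_top_iff]
      filter_upwards [hloc.filter_mono nhdsWithin_le_nhds] with z hz
      rw [hz, sub_self]
  -- periodicity near the pole
  set z0 : ℂ := z1 - e / c with hz0
  have hφ0 : e + c * (z0 - z1) = 0 := by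
    rw [hz0]
    field_simp
    ring
  have hφ0' : ∀ z, e + c * (z + l - z1) = (e + c * (z - z1)) + c * l := fun z => by ring
  have htr : Tendsto (fun z : ℂ => z + l) (𝓝[≠] z0) (𝓝[≠] (z0 + l)) := by
    refine tendsto_nhdsWithin_iff.2 ⟨?_, ?_⟩
    · have : Continuous fun z : ℂ => z + l := by fun_prop
      exact this.continuousAt.tendsto.mono_left nhdsWithin_le_nhds
    · filter_upwards [self_mem_nhdsWithin] with z hz hz2
      apply hz
      have h2 : z + l = z0 + l := hz2
      exact add_right_cancel h2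
  have hev : ∀ᶠ z in 𝓝[≠] z0, ℘[L] (e + c * (z - z1) + c * l) = ℘[L] (e + c * (z - z1)) := by
    filter_upwards [htr.eventually (cod_iff.1 hid (z0 + l)), cod_iff.1 hid z0,
      cod_iff.1 (hA.2 l hl) z0] with z h1 h2 h3
    rw [← hφ0', ← h1, ← h2, h3]
  have hpole : Tendsto (fun z => ℘[L] (e + c * (z - z1))) (𝓝[≠] z0) (Bornology.cobounded ℂ) := by
    have h1 : Tendsto ℘[L] (𝓝[≠] (0 : ℂ)) (Bornology.cobounded ℂ) := by
      refine tendsto_cobounded_of_meromorphicOrderAt_neg ?_
      rw [L.order_weierstrassP 0 (zero_mem _)]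
      have : ((-2 : ℤ) : WithTop ℤ) < ((0 : ℤ) : WithTop ℤ) := by
        exact WithTop.coe_lt_coe.2 (by norm_num)
      exact this
    have h2 := tendsto_aff (e := e) (z1 := z1) (z0 := z0) hc
    rw [hφ0] at h2
    exact h1.comp h2
  have hfin : Tendsto (fun z => ℘[L] (e + c * (z - z1) + c * l)) (𝓝[≠] z0) (𝓝 (℘[L] (c * l))) := by
    have h1 : ContinuousAt ℘[L] (c * l) := (analyticAt_wp hcl).continuousAt
    have h2 : Tendsto (fun z : ℂ => e + c * (z - z1) + c * l) (𝓝[≠] z0) (𝓝 (c * l)) := by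
      have h3 : Continuous fun z : ℂ => e + c * (z - z1) + c * l := by fun_prop
      have h4 := (h3.continuousAt (x := z0)).tendsto.mono_left
        (nhdsWithin_le_nhds (s := ({z0}ᶜ : Set ℂ)))
      have h5 : e + c * (z0 - z1) + c * l = c * l := by rw [hφ0, zero_add]
      rwa [h5] at h4
    exact h1.tendsto.comp h2
  have h6 := hfin.congr' hev
  exact not_tendsto_atTop_of_tendsto_nhds h6.norm (tendsto_norm_cobounded_atTop.comp hpole)

/-- `endo`, assuming the theorem of Liouville for the quotient `A' / B` -/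
theorem endo_of {A B : ℂ → ℂ} (hA : Ellip L A) (hB : Ellip L B)
    (h : (fun z => B z ^ 2) =ᶠ[codiscrete ℂ] fun z => 4 * A z ^ 3 - L.g₂ * A z - L.g₃)
    (liouville : (∀ z, 0 ≤ meromorphicOrderAt (fun z => deriv A z * (B z)⁻¹) z) →
      ∃ c : ℂ, (fun z => deriv A z * (B z)⁻¹) =ᶠ[codiscrete ℂ] fun _ => c) :
    ∃ c : ℂ, (∀ w ∈ L.lattice, c * w ∈ L.lattice) ∧
      deriv A =ᶠ[codiscrete ℂ] fun z => c * B z := by
  have hzero : deriv A =ᶠ[codiscrete ℂ] (fun _ => 0) →
      ∃ c : ℂ, (∀ w ∈ L.lattice, c * w ∈ L.lattice) ∧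
      deriv A =ᶠ[codiscrete ℂ] fun z => c * B z := by
    intro h0
    refine ⟨0, fun w _ => by simp, ?_⟩
    filter_upwards [h0] with z hz
    simp [hz]
  have hdA : Meromorphic (deriv A) := fun x => (hA.1 x).deriv
  rcases zero_or hB.1 with hB0 | hB0
  · apply hzero
    rcases zero_or hdA with h1 | h1
    · exact h1
    · exfalso
      have h2 : (fun z => 4 * A z ^ 3 - L.g₂ * A z - L.g₃) =ᶠ[codiscrete ℂ] fun _ => (0 : ℂ) := by
        filter_upwards [h, hB0] with z hz hz2
        rw [← hz, hz2]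
        norm_num
      have h3 := cod_deriv h2
      obtain ⟨z, hz⟩ : ∃ z : ℂ, False := by
        have h4 : ∀ᶠ z in 𝓝[≠] (0 : ℂ), False := by
          filter_upwards [cod_iff.1 h3 0, cod_iff.1 h2 0, (hA.1 0).eventually_analyticAt,
            (meromorphicOrderAt_ne_top_iff_eventually_ne_zero (hdA 0)).1 (h1 0)]
            with z e1 e2 e3 e4
          have h5 := e3.differentiableAt.hasDerivAt
          have h6 := ((((h5.fun_pow 3).const_mul 4).fun_sub (h5.const_mul L.g₂)).sub_const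
            L.g₃).deriv
          rw [h6] at e1
          simp only [deriv_const'] at e1
          have h7 : (12 * A z ^ 2 - L.g₂) * deriv A z = 0 := by
            rw [← e1]
            push_cast
            ring
          rcases mul_eq_zero.1 h7 with h8 | h8
          · exact simple_roots _ e2 h8
          · exact e4 h8
        exact h4.exists
      exact hz
  · have hord : ∀ z, 0 ≤ meromorphicOrderAt (fun z => deriv A z * (B z)⁻¹) z := by
      intro x
      have h1 := ord_le (hA.1 x) (hB.1 x) (cod_iff.1 h x) (hB0 x)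
      have e1 : (fun z => deriv A z * (B z)⁻¹) = deriv A * B⁻¹ := rfl
      rw [e1, meromorphicOrderAt_mul (hdA x) (hB.1 x).inv, meromorphicOrderAt_inv]
      obtain ⟨b, hb⟩ := WithTop.ne_top_iff_exists.1 (hB0 x)
      rw [← hb] at h1 ⊢
      by_cases ht : meromorphicOrderAt (deriv A) x = ⊤
      · rw [ht]
        simp
      · obtain ⟨a, ha⟩ := WithTop.ne_top_iff_exists.1 ht
        rw [← ha] at h1 ⊢
        have h2 : b ≤ a := by exact_mod_cast h1
        have h3 : (a : WithTop ℤ) + -(b : WithTop ℤ) = ((a - b : ℤ) : WithTop ℤ) := by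
          rw [sub_eq_add_neg]
          norm_cast
        rw [h3]
        exact_mod_cast (by omega : 0 ≤ a - b)
    obtain ⟨c, hcc⟩ := liouville hord
    have hAB : deriv A =ᶠ[codiscrete ℂ] fun z => c * B z := by
      refine cod_iff.2 fun x => ?_
      filter_upwards [cod_iff.1 hcc x,
        (meromorphicOrderAt_ne_top_iff_eventually_ne_zero (hB.1 x)).1 (hB0 x)] with z h1 h2
      rw [← h1, mul_assoc, inv_mul_cancel₀ h2, mul_one]
    by_cases hc : c = 0
    · apply hzero
      filter_upwards [hAB] with z hz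
      rw [hz, hc, zero_mul]
    · exact ⟨c, mult_mem hA hB h hB0 hc hAB, hAB⟩

end Pool.Agent.TH55.EL
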