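import Mathlib
import Pool.Agent.TH55.EL.Endo

/-!
# Job 1795: elliptic functions on the curve (final form)
-/

set_option autoImplicit false

open Filter
open scoped Topology PeriodPair

noncomputable section

namespace Pool.Agent.TH55.EL

open H667R3 Pool.Agent.W245.EB Pool.Agent.TH813.Ell

variable {L : PeriodPair}

theorem liouville {f : ℂ → ℂ} (hf : Ellip L f) (h : ∀ z, 0 ≤ meromorphicOrderAt f z) :
    ∃ c : ℂ, f =ᶠ[codiscrete ℂ] fun _ => c := by
  have hfm : MeromorphicOn f Set.univ := fun z _ => hf.1 z
  set g := toMeromorphicNFOn f Set.univ with hg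
  have hfg : ∀ x, f =ᶠ[𝓝[≠] x] g := fun x =>
    (hfm.toMeromorphicNFOn_eq_self_on_nhdsNE (Set.mem_univ x)).symm
  have hgan : ∀ x, AnalyticAt ℂ g x := by
    intro x
    have h1 : MeromorphicNFAt g x := meromorphicNFOn_toMeromorphicNFOn f Set.univ (Set.mem_univ x)
    rw [← h1.meromorphicOrderAt_nonneg_iff_analyticAt, ← meromorphicOrderAt_congr (hfg x)]
    exact h x
  have hgd : Differentiable ℂ g := fun x => (hgan x).differentiableAt
  have hper : ∀ z w, w ∈ L.lattice → g (z + w) = g z := by
    intro z w hw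
    have htr : Tendsto (fun y : ℂ => y + w) (𝓝[≠] z) (𝓝[≠] (z + w)) := by
      refine tendsto_nhdsWithin_iff.2 ⟨?_, ?_⟩
      · have : Continuous fun y : ℂ => y + w := by fun_prop
        exact this.continuousAt.tendsto.mono_left nhdsWithin_le_nhds
      · filter_upwards [self_mem_nhdsWithin] with y hy hy2
        apply hy
        have h2 : y + w = z + w := hy2
        exact add_right_cancel h2
    have hev : (fun y => g (y + w)) =ᶠ[𝓝[≠] z] g := by
      filter_upwards [htr.eventually (hfg (z + w)), hfg z, cod_iff.1 (hf.2 w hw) z] with y h1 h2 h3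
      rw [← h1, ← h2, h3]
    have hc1 : Tendsto (fun y => g (y + w)) (𝓝[≠] z) (𝓝 (g (z + w))) := by
      have : Continuous fun y => g (y + w) := hgd.continuous.comp (by fun_prop)
      exact this.continuousAt.tendsto.mono_left nhdsWithin_le_nhds
    have hc2 : Tendsto g (𝓝[≠] z) (𝓝 (g z)) :=
      hgd.continuous.continuousAt.tendsto.mono_left nhdsWithin_le_nhds
    exact tendsto_nhds_unique hc1 (hc2.congr' hev.symm)
  have hb : Bornology.IsBounded (Set.range g) :=
    (IsZLattice.isCompact_range_of_periodic L.lattice g hgd.continuous hper).isBounded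
  refine ⟨g 0, cod_iff.2 fun x => ?_⟩
  filter_upwards [hfg x] with z hz
  rw [hz]
  exact hgd.apply_eq_apply_of_bounded hb z 0

/-- **Elliptic functions on the curve**: a point of the curve with values in the field of elliptic
functions is given by a multiplication of the lattice, up to a translation. -/
theorem endo {A B : ℂ → ℂ} (hA : Ellip L A) (hB : Ellip L B)
    (h : (fun z => B z ^ 2) =ᶠ[codiscrete ℂ] fun z => 4 * A z ^ 3 - L.g₂ * A z - L.g₃) :
    ∃ c : ℂ, (∀ w ∈ L.lattice, c * w ∈ L.lattice) ∧
      _root_.deriv A =ᶠ[codiscrete ℂ] fun z => c * B z := by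
  have hE : Ellip L (fun z => deriv A z * (B z)⁻¹) := by
    refine ⟨fun x => ((hA.1 x).deriv).fun_mul (hB.1 x).inv, ?_⟩
    intro l hl
    have h1 := cod_deriv (hA.2 l hl)
    filter_upwards [h1, hB.2 l hl] with z hz hz2
    rw [deriv_comp_add_const] at hz
    rw [hz, hz2]
  exact endo_of hA hB h (liouville hE)

end Pool.Agent.TH55.EL
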